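import Pool.Agent.Q183.LM.Nil

set_option autoImplicit false

/-!
# The extension preserves the product measure
-/

namespace Pool.Agent.Q183.LM

open MeasureTheory Filter
open scoped commutatorElement

variable {Λ : Type} [AddCommGroup Λ] {X : Type} [MeasurableSpace X] (μ : Measure X)
  [IsProbabilityMeasure μ]

/-- the invertible measure preserving maps -/
def MP : Subgroup (Equiv.Perm X) where
  carrier := {w | Measurable w.symm ∧ MeasurePreserving w μ μ}
  mul_mem' := by
    rintro a b ⟨ha1, ha2⟩ ⟨hb1, hb2⟩
    exact ⟨hb1.comp ha1, ha2.comp hb2⟩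
  one_mem' := ⟨measurable_id, MeasurePreserving.id μ⟩
  inv_mem' := by
    rintro a ⟨ha1, ha2⟩
    refine ⟨ha2.measurable, ?_⟩
    refine ⟨ha1, ?_⟩
    have h : μ = μ.map a := ha2.map_eq.symm
    have h2 : (μ.map a).map (a⁻¹ : Equiv.Perm X) = μ := by
      have h3 : Measurable (a⁻¹ : Equiv.Perm X) := ha1
      rw [Measure.map_map h3 ha2.measurable]
      have : ((a⁻¹ : Equiv.Perm X) : X → X) ∘ (a : X → X) = id := by
        funext x
        simp
      rw [this, Measure.map_id]
    rw [← h] at h2
    exact h2

theorem Th_mp {g : Λ → Equiv.Perm X} (hg : ∀ i, g i ∈ MP μ) (l : Λ) :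
    Th g l ∈ MP (Measure.infinitePi (fun _ : Λ => μ)) := by
  have hm : Measurable (Th g l) := by
    rw [measurable_pi_iff]
    intro i
    exact (hg i).2.measurable.comp (measurable_pi_apply (i + l))
  refine ⟨?_, hm, ?_⟩
  · rw [measurable_pi_iff]
    intro i
    exact (hg (i - l)).1.comp (measurable_pi_apply (i - l))
  · refine Measure.eq_infinitePi _ ?_
    intro s t ht
    rw [Measure.map_apply hm (MeasurableSet.pi s.countable_toSet fun i _ => ht i)]
    have h1 : (Th g l : (Λ → X) → (Λ → X)) ⁻¹' (Set.pi s t) =
        Set.pi (s.map (Equiv.addRight l).toEmbedding : Finset Λ)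
          (fun j => (g (j - l)) ⁻¹' t (j - l)) := by
      ext y
      simp only [Set.mem_preimage, Set.mem_pi, Finset.mem_coe, Finset.mem_map,
        Equiv.coe_toEmbedding, Equiv.coe_addRight, forall_exists_index, and_imp,
        forall_apply_eq_imp_iff₂, add_sub_cancel_right]
      refine forall₂_congr fun i _ => ?_
      rw [show i + l - l = i by abel]
      rfl
    rw [h1, Measure.infinitePi_pi]
    · rw [Finset.prod_map]
      apply Finset.prod_congr rfl
      intro i _
      have e : (Equiv.addRight l).toEmbedding i - l = i := by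
        simp
      rw [e]
      exact (hg i).2.measure_preimage (ht i).nullMeasurableSet
    · intro j _
      exact (hg (j - l)).2.measurable (ht (j - l))

end Pool.Agent.Q183.LM
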