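import Pool.Agent.Q183.LM.Pol

set_option autoImplicit false

/-!
# The shifts and the polynomial maps generate a nilpotent group
-/

namespace Pool.Agent.Q183.LM

open scoped commutatorElement

/-- the filtration: each term of the lower central series is repeated `e` times -/
def Fil {G : Type} [Group G] (S : Subgroup G) (e : ℕ) (i : ℕ) : Subgroup G :=
  S.lowerCentralSeries ((i - 1) / e)

section
variable {Λ : Type} [AddCommGroup Λ] {G : Type} [Group G] {S : Subgroup G} {e : ℕ}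

theorem Fil_anti (i : ℕ) : Fil S e (i + 1) ≤ Fil S e i :=
  S.lowerCentralSeries_antitone (Nat.div_le_div_right (by omega))

theorem Fil_comm (he : 1 ≤ e) (i j : ℕ) : ⁅Fil S e i, Fil S e j⁆ ≤ Fil S e (i + j) := by
  refine (Pool.Agent.Helper28.LCN.lcs_comm S _ _).trans (S.lowerCentralSeries_antitone ?_)
  rw [Nat.div_le_iff_le_mul_add_pred (by omega)]
  have h1 := Nat.div_add_mod (i - 1) e
  have h2 := Nat.div_add_mod (j - 1) e
  have h3 := Nat.mod_lt (i - 1) (show 0 < e by omega)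
  have h4 := Nat.mod_lt (j - 1) (show 0 < e by omega)
  have h5 : e * ((i - 1) / e + (j - 1) / e + 1) = e * ((i - 1) / e) + e * ((j - 1) / e) + e := by
    ring
  rw [h5]
  omega

/-- functions all of whose differences of order `r` vanish -/
def PF (Λ : Type) [AddCommGroup Λ] : ℕ → Set (Λ → ℤ)
  | 0 => {0}
  | r + 1 => {p | ∀ h, (fun n => p (n + h) - p n) ∈ PF Λ r}

theorem PF_zero (r : ℕ) : (0 : Λ → ℤ) ∈ PF Λ r := by
  induction r with
  | zero => rfl
  | succ r ih =>
    intro h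
    have : (fun n : Λ => (0 : Λ → ℤ) (n + h) - (0 : Λ → ℤ) n) = 0 := by
      funext n
      simp
    rw [this]
    exact ih

theorem PF_succ {r : ℕ} {p : Λ → ℤ} (hp : p ∈ PF Λ r) : p ∈ PF Λ (r + 1) := by
  induction r generalizing p with
  | zero =>
    have : p = 0 := hp
    rw [this]
    exact PF_zero 1
  | succ r ih => exact fun h => ih (hp h)

theorem PF_mono {r s : ℕ} (hrs : r ≤ s) {p : Λ → ℤ} (hp : p ∈ PF Λ r) : p ∈ PF Λ s := by
  induction s, hrs using Nat.le_induction with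
  | base => exact hp
  | succ t _ ih => exact PF_succ ih

theorem PF_add {r : ℕ} {p q : Λ → ℤ} (hp : p ∈ PF Λ r) (hq : q ∈ PF Λ r) : p + q ∈ PF Λ r := by
  induction r generalizing p q with
  | zero =>
    have h1 : p = 0 := hp
    have h2 : q = 0 := hq
    rw [h1, h2, add_zero]
    rfl
  | succ r ih =>
    intro h
    have e : (fun n => (p + q) (n + h) - (p + q) n) =
        (fun n => p (n + h) - p n) + (fun n => q (n + h) - q n) := by
      funext n
      simp only [Pi.add_apply]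
      ring
    rw [e]
    exact ih (hp h) (hq h)

theorem PF_sum {r : ℕ} {ι : Type*} (s : Finset ι) (p : ι → Λ → ℤ) (hp : ∀ i ∈ s, p i ∈ PF Λ r) :
    (∑ i ∈ s, p i) ∈ PF Λ r := by
  classical
  induction s using Finset.induction_on with
  | empty =>
    rw [Finset.sum_empty]
    exact PF_zero r
  | insert a s ha ih =>
    rw [Finset.sum_insert ha]
    exact PF_add (hp a (Finset.mem_insert_self _ _)) (ih fun i hi => hp i (Finset.mem_insert_of_mem hi))

theorem PF_shift {r : ℕ} {p : Λ → ℤ} (hp : p ∈ PF Λ r) (l : Λ) : (fun n => p (n + l)) ∈ PF Λ r := by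
  induction r generalizing p with
  | zero =>
    have h1 : p = 0 := hp
    rw [h1]
    rfl
  | succ r ih =>
    intro h
    have e : (fun n => p (n + h + l) - p (n + l)) =
        (fun n => (fun n => p (n + h) - p n) (n + l)) := by
      funext n
      simp only
      rw [show n + h + l = n + l + h by abel]
    rw [e]
    exact ih (hp h)

theorem PF_mul (c : ℕ) : ∀ (a b : ℕ) (p q : Λ → ℤ), a + b = c → p ∈ PF Λ (a + 1) →
    q ∈ PF Λ (b + 1) → p * q ∈ PF Λ (c + 1) := by
  induction c with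
  | zero =>
    intro a b p q hab hp hq h
    obtain ⟨rfl, rfl⟩ : a = 0 ∧ b = 0 := by omega
    have h1 : (fun n => p (n + h) - p n) = 0 := hp h
    have h2 : (fun n => q (n + h) - q n) = 0 := hq h
    show (fun n => (p * q) (n + h) - (p * q) n) = 0
    funext n
    have h3 := congrFun h1 n
    have h4 := congrFun h2 n
    simp only [Pi.zero_apply, Pi.mul_apply] at h3 h4 ⊢
    rw [sub_eq_zero.1 h3, sub_eq_zero.1 h4, sub_self]
  | succ c ih =>
    intro a b p q hab hp hq h
    have e : (fun n => (p * q) (n + h) - (p * q) n) =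
        (fun n => p (n + h) - p n) * (fun n => q (n + h)) +
          p * (fun n => q (n + h) - q n) := by
      funext n
      simp only [Pi.add_apply, Pi.mul_apply]
      ring
    rw [e]
    refine PF_add ?_ ?_
    · cases a with
      | zero =>
        have h1 : (fun n => p (n + h) - p n) = 0 := hp h
        rw [h1, zero_mul]
        exact PF_zero _
      | succ a => exact ih a b _ _ (by omega) (hp h) (PF_shift hq h)
    · cases b with
      | zero =>
        have h1 : (fun n => q (n + h) - q n) = 0 := hq h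
        rw [h1, mul_zero]
        exact PF_zero _
      | succ b => exact ih a b _ _ (by omega) hp (hq h)

theorem PF_const (c : ℤ) : (fun _ : Λ => c) ∈ PF Λ 1 := by
  intro h
  show (fun n : Λ => c - c) = 0
  funext n
  simp

theorem PF_pow {p : Λ → ℤ} (hp : p ∈ PF Λ 2) (k : ℕ) : p ^ k ∈ PF Λ (k + 1) := by
  induction k with
  | zero =>
    rw [pow_zero]
    exact PF_const 1
  | succ k ih =>
    rw [pow_succ]
    exact PF_mul (k + 1) k 1 _ _ rfl ih hp

theorem PF_prod {ι : Type*} (s : Finset ι) (p : ι → Λ → ℤ) (k : ι → ℕ)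
    (hp : ∀ i ∈ s, p i ∈ PF Λ (k i + 1)) : (∏ i ∈ s, p i) ∈ PF Λ ((∑ i ∈ s, k i) + 1) := by
  classical
  induction s using Finset.induction_on with
  | empty =>
    rw [Finset.prod_empty]
    exact PF_const 1
  | insert a s ha ih =>
    rw [Finset.prod_insert ha, Finset.sum_insert ha]
    exact PF_mul _ _ _ _ _ rfl (hp a (Finset.mem_insert_self _ _))
      (ih fun i hi => hp i (Finset.mem_insert_of_mem hi))

/-- polynomials in several variables -/
theorem PF_mv {k D : ℕ} {P : MvPolynomial (Fin k) ℤ} (hP : P.totalDegree ≤ D) :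
    (fun n : Fin k → ℤ => MvPolynomial.eval n P) ∈ PF (Fin k → ℤ) (D + 1) := by
  have e : (fun n : Fin k → ℤ => MvPolynomial.eval n P) =
      ∑ d ∈ P.support, ((fun _ => P.coeff d) * ∏ i ∈ d.support, (fun n : Fin k → ℤ => n i) ^ d i) := by
    funext n
    rw [MvPolynomial.eval_eq, Finset.sum_apply]
    apply Finset.sum_congr rfl
    intro d _
    rw [Pi.mul_apply, Finset.prod_apply]
    rfl
  rw [e]
  apply PF_sum
  intro d hd
  have hdeg : (∑ i ∈ d.support, d i) ≤ D := (MvPolynomial.le_totalDegree hd).trans hP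
  have hcoord : ∀ i : Fin k, (fun n : Fin k → ℤ => n i) ∈ PF (Fin k → ℤ) 2 := by
    intro i h
    have e2 : (fun n : Fin k → ℤ => (n + h) i - n i) = fun _ => h i := by
      funext n
      simp
    rw [e2]
    exact PF_const _
  refine PF_mono (r := (∑ i ∈ d.support, d i) + 1) (by omega)
    (PF_mul (∑ i ∈ d.support, d i) 0 (∑ i ∈ d.support, d i) _ _ (zero_add _) (PF_const _) ?_)
  exact PF_prod _ _ _ fun i _ => PF_pow (hcoord i) (d i)

/-- the powers with polynomial exponents -/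
def pw (T : G) (p : Λ → ℤ) (n : Λ) : G := T ^ p n

theorem D_pw (T : G) (p : Λ → ℤ) (h : Λ) : D h (pw T p) = pw T (fun n => p (n + h) - p n) := by
  funext n
  unfold D pw
  rw [zpow_sub]

theorem pw_Pol (_he : 1 ≤ e) {T : G} (hT : T ∈ S) (k : ℕ) : ∀ (s r : ℕ) (p : Λ → ℤ),
    p ∈ PF Λ r → (r = 0 ∨ r + s ≤ e + 1) → pw T p ∈ Pol Λ (Fil S e) k s := by
  have hval : ∀ (s r : ℕ) (p : Λ → ℤ), p ∈ PF Λ r → (r = 0 ∨ r + s ≤ e + 1) → ∀ n,
      pw T p n ∈ Fil S e s := by
    intro s r p hp hr n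
    cases r with
    | zero =>
      have h1 : p = 0 := hp
      rw [h1]
      simp only [pw, Pi.zero_apply, zpow_zero]
      exact one_mem _
    | succ r =>
      have h1 : (s - 1) / e = 0 := Nat.div_eq_of_lt (by omega)
      unfold Fil
      rw [h1, Subgroup.lowerCentralSeries_zero]
      exact S.zpow_mem hT _
  induction k with
  | zero => intro s r p hp hr n; exact hval s r p hp hr n
  | succ k ih =>
    intro s r p hp hr
    refine ⟨hval s r p hp hr, fun h => ?_⟩
    rw [D_pw]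
    cases r with
    | zero =>
      have h1 : p = 0 := hp
      refine ih (s + 1) 0 _ ?_ (Or.inl rfl)
      rw [h1]
      show (fun n : Λ => (0 : Λ → ℤ) (n + h) - (0 : Λ → ℤ) n) = 0
      funext n
      simp
    | succ r => exact ih (s + 1) r _ (hp h) (by omega)

/-- words in powers with polynomial exponents -/
theorem word_PolG (he : 1 ≤ e) {d : ℕ} {T : Fin d → G} (hT : ∀ i, T i ∈ S) {p : Fin d → Λ → ℤ}
    (hP : ∀ i, p i ∈ PF Λ e) :
    (fun n : Λ => (List.ofFn fun i : Fin d => T i ^ p i n).prod) ∈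
      PolG Λ (Fil S e) Fil_anti (Fil_comm he) 1 := by
  have h : (fun n : Λ => (List.ofFn fun i : Fin d => T i ^ p i n).prod) =
      (List.ofFn fun i : Fin d => pw (T i) (p i)).prod := by
    funext n
    induction d with
    | zero => simp
    | succ d ih =>
      rw [List.ofFn_succ, List.prod_cons, List.ofFn_succ, List.prod_cons, Pi.mul_apply,
        ← ih (fun i => hT i.succ) (fun i => hP i.succ)]
      rfl
  rw [h]
  apply list_prod_mem
  intro x hx
  rw [List.mem_ofFn] at hx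
  obtain ⟨i, rfl⟩ := hx
  exact fun k => pw_Pol he (hT i) k 1 e (p i) (hP i) (by omega)

/-- constants -/
theorem const_PolG (he : 1 ≤ e) {c : G} (hc : c ∈ S) :
    (fun _ : Λ => c) ∈ PolG Λ (Fil S e) Fil_anti (Fil_comm he) 1 := by
  have h := word_PolG (Λ := Λ) (S := S) he (d := 1) (T := fun _ => c) (fun _ => hc)
    (p := fun _ _ => 1) (fun _ => PF_mono he (PF_const 1))
  simpa using h

end

section
variable {Λ : Type} [AddCommGroup Λ] {X : Type}

/-- the permutations of the space of maps -/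
def Th (g : Λ → Equiv.Perm X) (l : Λ) : Equiv.Perm (Λ → X) where
  toFun y i := g i (y (i + l))
  invFun y i := (g (i - l))⁻¹ (y (i - l))
  left_inv y := by
    funext i
    simp
  right_inv y := by
    funext i
    simp

theorem Th_apply (g : Λ → Equiv.Perm X) (l : Λ) (y : Λ → X) (i : Λ) :
    Th g l y i = g i (y (i + l)) := rfl

theorem Th_mul (g h : Λ → Equiv.Perm X) (l m : Λ) :
    Th g l * Th h m = Th (g * sh l h) (l + m) := by
  ext y i
  simp only [Equiv.Perm.mul_apply, Th_apply, Pi.mul_apply, sh]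
  rw [add_assoc]

theorem Th_one : Th (1 : Λ → Equiv.Perm X) 0 = 1 := by
  ext y i
  simp [Th_apply]

theorem Th_inv (g : Λ → Equiv.Perm X) (l : Λ) : (Th g l)⁻¹ = Th (sh (-l) g⁻¹) (-l) := by
  rw [inv_eq_iff_mul_eq_one, Th_mul, add_neg_cancel]
  have : g * sh l (sh (-l) g⁻¹) = 1 := by
    funext n
    simp [sh]
  rw [this, Th_one]

theorem Th_div (g h : Λ → Equiv.Perm X) (l : Λ) : Th g l * (Th h l)⁻¹ = Th (g * h⁻¹) 0 := by
  rw [Th_inv, Th_mul, add_neg_cancel]
  have : sh l (sh (-l) h⁻¹) = h⁻¹ := by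
    funext n
    simp [sh]
  rw [this]

theorem Th_comm (g h : Λ → Equiv.Perm X) (l m : Λ) : ⁅Th g l, Th h m⁆ =
    Th (⁅g, sh l h⁆ * (sh l h * (sh m g * g⁻¹)⁻¹ * (sh l h)⁻¹) * (sh l h * h⁻¹)) 0 := by
  have h1 : ⁅Th g l, Th h m⁆ = (Th g l * Th h m) * (Th h m * Th g l)⁻¹ := by
    rw [commutatorElement_def]
    group
  rw [h1, Th_mul, Th_mul, add_comm m l, Th_div]
  congr 1
  rw [commutatorElement_def]
  group

variable {S : Subgroup (Equiv.Perm X)} {e : ℕ}

/-- the group generated by the shifts and by the polynomial maps -/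
def L0 (Λ : Type) [AddCommGroup Λ] (S : Subgroup (Equiv.Perm X)) (e : ℕ) (he : 1 ≤ e) :
    Subgroup (Equiv.Perm (Λ → X)) where
  carrier := {w | ∃ (l : Λ) (g : Λ → Equiv.Perm X),
    g ∈ PolG Λ (Fil S e) Fil_anti (Fil_comm he) 1 ∧ w = Th g l}
  mul_mem' := by
    rintro _ _ ⟨l, g, hg, rfl⟩ ⟨m, h, hh, rfl⟩
    exact ⟨l + m, g * sh l h, mul_mem hg (PolS_sh hh l), Th_mul _ _ _ _⟩
  one_mem' := ⟨0, 1, one_mem _, Th_one.symm⟩
  inv_mem' := by
    rintro _ ⟨l, g, hg, rfl⟩
    exact ⟨-l, sh (-l) g⁻¹, PolS_sh (inv_mem hg) (-l), Th_inv _ _⟩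

/-- the polynomial maps of weight `s` -/
def L (Λ : Type) [AddCommGroup Λ] (S : Subgroup (Equiv.Perm X)) (e : ℕ) (he : 1 ≤ e) (s : ℕ) :
    Subgroup (Equiv.Perm (Λ → X)) where
  carrier := {w | ∃ (g : Λ → Equiv.Perm X),
    g ∈ PolG Λ (Fil S e) Fil_anti (Fil_comm he) s ∧ w = Th g 0}
  mul_mem' := by
    rintro _ _ ⟨g, hg, rfl⟩ ⟨h, hh, rfl⟩
    refine ⟨g * sh 0 h, mul_mem hg (PolS_sh hh 0), ?_⟩
    rw [Th_mul, add_zero]
  one_mem' := ⟨1, one_mem _, Th_one.symm⟩
  inv_mem' := by
    rintro _ ⟨g, hg, rfl⟩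
    refine ⟨sh (-0) g⁻¹, PolS_sh (inv_mem hg) _, ?_⟩
    rw [Th_inv, neg_zero]

theorem conj_PolG {he : 1 ≤ e} {a b : ℕ} {g x : Λ → Equiv.Perm X}
    (hg : g ∈ PolG Λ (Fil S e) Fil_anti (Fil_comm he) a)
    (hx : x ∈ PolG Λ (Fil S e) Fil_anti (Fil_comm he) b) :
    g * x * g⁻¹ ∈ PolG Λ (Fil S e) Fil_anti (Fil_comm he) b := by
  have h1 : g * x * g⁻¹ = ⁅g, x⁆ * x := by
    rw [commutatorElement_def]
    group
  rw [h1]
  exact mul_mem (PolG_anti (by omega) (PolG_comm hg hx)) hx

theorem lcs_le (he : 1 ≤ e) (t : ℕ) :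
    (L0 Λ S e he).lowerCentralSeries (t + 1) ≤ L Λ S e he (t + 2) := by
  induction t with
  | zero =>
    rw [Subgroup.lowerCentralSeries_succ, Subgroup.lowerCentralSeries_zero, Subgroup.commutator_le]
    rintro _ ⟨l, g, hg, rfl⟩ _ ⟨m, h, hh, rfl⟩
    rw [Th_comm]
    refine ⟨_, ?_, rfl⟩
    have hh' : sh l h ∈ PolG Λ (Fil S e) Fil_anti (Fil_comm he) 1 := PolS_sh hh l
    refine mul_mem (mul_mem ?_ ?_) ?_
    · have := PolG_comm hg hh'
      exact PolG_anti (by omega) this
    · exact conj_PolG (he := he) (b := 1 + 1) hh' (inv_mem (PolG_diff hg m))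
    · exact PolG_diff hh l
  | succ t ih =>
    rw [Subgroup.lowerCentralSeries_succ, Subgroup.commutator_le]
    intro x hx y hy
    obtain ⟨g, hg, rfl⟩ := ih hx
    obtain ⟨m, h, hh, rfl⟩ := hy
    rw [Th_comm]
    refine ⟨_, ?_, rfl⟩
    have hh' : sh 0 h ∈ PolG Λ (Fil S e) Fil_anti (Fil_comm he) 1 := PolS_sh hh 0
    have e0 : sh 0 h * h⁻¹ = 1 := by
      funext n
      simp [sh]
    rw [e0, mul_one]
    refine mul_mem ?_ ?_
    · have := PolG_comm hg hh'
      exact PolG_anti (by omega) this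
    · exact conj_PolG (he := he) (b := t + 2 + 1) hh' (inv_mem (PolG_diff hg m))

theorem lcs_bot (he : 1 ≤ e) {k : ℕ} (hk : 1 ≤ k) (hS : S.lowerCentralSeries k = ⊥) :
    (L0 Λ S e he).lowerCentralSeries (k * e) = ⊥ := by
  obtain ⟨t, ht⟩ : ∃ t, k * e = t + 1 := ⟨k * e - 1, by
    have : 1 ≤ k * e := Nat.mul_pos hk he
    omega⟩
  rw [eq_bot_iff, ht]
  refine (lcs_le he t).trans ?_
  rintro _ ⟨g, hg, rfl⟩
  have h1 : g = 1 := by
    funext n
    have h2 := PolS_val hg n
    unfold Fil at h2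
    have h3 : (t + 2 - 1) / e = k := by
      rw [show t + 2 - 1 = k * e by omega, Nat.mul_div_cancel _ (by omega)]
    rw [h3, hS, Subgroup.mem_bot] at h2
    exact h2
  rw [h1, Th_one]
  exact one_mem _

end

end Pool.Agent.Q183.LM
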